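import Mathlib
import Pool.Agent.TH641.Irr.Graph

set_option autoImplicit false
set_option linter.unusedSectionVars false
open Finset

namespace Pool.Agent.TH687.HG
open Pool.Agent.TH641.Irr

section gen
variable {α : Type*} [DecidableEq α]

lemma flip_av (E T : Finset α) (hT : T ⊆ E) (f : Finset α → ℝ) :
    av E (fun H => f (symmDiff H T)) = av E f := by
  unfold av
  congr 1
  refine Finset.sum_nbij' (fun H => symmDiff H T) (fun H => symmDiff H T) ?_ ?_ ?_ ?_ ?_
  · intro H hH
    rw [mem_powerset] at *
    intro x hx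
    rcases Finset.mem_symmDiff.1 hx with h | h
    · exact hH h.1
    · exact hT h.1
  · intro H hH
    rw [mem_powerset] at *
    intro x hx
    rcases Finset.mem_symmDiff.1 hx with h | h
    · exact hH h.1
    · exact hT h.1
  · intro H _; exact symmDiff_symmDiff_cancel_right _ _
  · intro H _; exact symmDiff_symmDiff_cancel_right _ _
  · intro H _; rfl

lemma av_card_eq' (E T : Finset α) (hT : T ⊆ E) (x : ℕ) :
    av E (fun H => if (H ∩ T).card = x then (1:ℝ) else 0) = (T.card.choose x : ℝ) / 2 ^ T.card := by
  unfold av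
  rw [Finset.sum_boole]
  have hcard : (E.powerset.filter (fun H => (H ∩ T).card = x)).card
      = (T.powersetCard x ×ˢ (E \ T).powerset).card := by
    refine Finset.card_nbij' (fun H => (H ∩ T, H \ T)) (fun A => A.1 ∪ A.2) ?_ ?_ ?_ ?_
    · intro H hH
      simp only [Finset.coe_filter, Finset.mem_powerset, Set.mem_setOf_eq] at hH
      simp only [Finset.coe_product, Set.mem_prod, Finset.mem_coe, Finset.mem_powersetCard,
        Finset.mem_powerset]
      refine ⟨⟨Finset.inter_subset_right, hH.2⟩, ?_⟩
      exact Finset.sdiff_subset_sdiff hH.1 (le_refl _)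
    · rintro ⟨A, B⟩ hAB
      simp only [Finset.coe_product, Set.mem_prod, Finset.mem_coe, Finset.mem_powersetCard,
        Finset.mem_powerset] at hAB
      obtain ⟨⟨hA, hc⟩, hB⟩ := hAB
      simp only [Finset.coe_filter, Finset.mem_powerset, Set.mem_setOf_eq]
      refine ⟨Finset.union_subset (hA.trans hT) (hB.trans Finset.sdiff_subset), ?_⟩
      have : (A ∪ B) ∩ T = A := by
        ext y
        simp only [Finset.mem_inter, Finset.mem_union]
        constructor
        · rintro ⟨h | h, hT'⟩
          · exact h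
          · exact absurd hT' (Finset.mem_sdiff.1 (hB h)).2
        · intro h; exact ⟨Or.inl h, hA h⟩
      rw [this, hc]
    · intro H _
      show (H ∩ T) ∪ (H \ T) = H
      rw [Finset.union_comm]; exact Finset.sdiff_union_inter H T
    · rintro ⟨A, B⟩ hAB
      simp only [Finset.coe_product, Set.mem_prod, Finset.mem_coe, Finset.mem_powersetCard,
        Finset.mem_powerset] at hAB
      obtain ⟨⟨hA, hc⟩, hB⟩ := hAB
      simp only [Prod.mk.injEq]
      constructor
      · ext y
        simp only [Finset.mem_inter, Finset.mem_union]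
        constructor
        · rintro ⟨h | h, hT'⟩
          · exact h
          · exact absurd hT' (Finset.mem_sdiff.1 (hB h)).2
        · intro h; exact ⟨Or.inl h, hA h⟩
      · ext y
        simp only [Finset.mem_sdiff, Finset.mem_union]
        constructor
        · rintro ⟨h | h, hT'⟩
          · exact absurd (hA h) hT'
          · exact h
        · intro h; exact ⟨Or.inr h, (Finset.mem_sdiff.1 (hB h)).2⟩
  rw [hcard, Finset.card_product, Finset.card_powersetCard, Finset.card_powerset,
    Finset.card_sdiff_of_subset hT]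
  have hle : T.card ≤ E.card := Finset.card_le_card hT
  have hpow : (2:ℝ) ^ E.card = 2 ^ (E.card - T.card) * 2 ^ T.card := by
    rw [← pow_add]; congr 1; omega
  rw [hpow]
  push_cast
  rw [mul_comm, mul_div_mul_left _ _ (by positivity)]

lemma flip_cond {H T1 T2 : Finset α} (hd : Disjoint T1 T2) :
    (symmDiff H T2 ∩ T1).card + (symmDiff H T2 ∩ T2).card + (H ∩ T2).card
      = (H ∩ T1).card + T2.card := by
  have h1 : symmDiff H T2 ∩ T1 = H ∩ T1 := by
    ext x
    simp only [Finset.mem_inter, Finset.mem_symmDiff]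
    constructor
    · rintro ⟨h | h, h'⟩
      · exact ⟨h.1, h'⟩
      · exact absurd h.1 (Finset.disjoint_left.1 hd h')
    · rintro ⟨h, h'⟩
      exact ⟨Or.inl ⟨h, Finset.disjoint_left.1 hd h'⟩, h'⟩
  have h2 : symmDiff H T2 ∩ T2 = T2 \ H := by
    ext x
    simp only [Finset.mem_inter, Finset.mem_symmDiff, Finset.mem_sdiff]
    tauto
  rw [h1, h2]
  have h3 : (T2 \ H).card + (H ∩ T2).card = T2.card := by
    rw [Finset.inter_comm]
    exact Finset.card_sdiff_add_card_inter T2 H
  omega

lemma flip_cond1 {H T1 T2 : Finset α} (hd : Disjoint T1 T2) :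
    (symmDiff H T2 ∩ T1).card = (H ∩ T1).card := by
  have h1 : symmDiff H T2 ∩ T1 = H ∩ T1 := by
    ext x
    simp only [Finset.mem_inter, Finset.mem_symmDiff]
    constructor
    · rintro ⟨h | h, h'⟩
      · exact ⟨h.1, h'⟩
      · exact absurd h.1 (Finset.disjoint_left.1 hd h')
    · rintro ⟨h, h'⟩
      exact ⟨Or.inl ⟨h, Finset.disjoint_left.1 hd h'⟩, h'⟩
  rw [h1]

lemma card_inter_union {H T1 T2 : Finset α} (hd : Disjoint T1 T2) :
    (H ∩ (T1 ∪ T2)).card = (H ∩ T1).card + (H ∩ T2).card := by
  rw [Finset.inter_union_distrib_left, Finset.card_union_of_disjoint]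
  exact Finset.disjoint_of_subset_left Finset.inter_subset_right
    (Finset.disjoint_of_subset_right Finset.inter_subset_right hd)

/-- the difference of two independent binomial variables -/
lemma av_diff (E T1 T2 : Finset α) (h1 : T1 ⊆ E) (h2 : T2 ⊆ E) (hd : Disjoint T1 T2) (a b : ℕ) :
    av E (fun H => if a + (H ∩ T1).card = b + (H ∩ T2).card then (1:ℝ) else 0)
      ≤ bet (T1.card + T2.card) := by
  rw [← flip_av E T2 h2]
  have hU : (T1 ∪ T2).card = T1.card + T2.card := Finset.card_union_of_disjoint hd
  rw [← hU]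
  by_cases hab : a ≤ b + T2.card
  · refine le_trans (le_of_eq (av_congr ?_)) (av_card_eq E (T1 ∪ T2) (Finset.union_subset h1 h2)
      (b + T2.card - a))
    intro H _
    have e1 := flip_cond (H := H) hd
    have e2 := flip_cond1 (H := H) hd
    have e3 := card_inter_union (H := H) hd
    congr 1
    apply propext
    constructor
    · intro h; omega
    · intro h; omega
  · refine le_trans (le_of_eq (av_congr (g := fun _ => (0:ℝ)) ?_)) ?_
    · intro H _
      have e1 := flip_cond (H := H) hd
      have e2 := flip_cond1 (H := H) hd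
      rw [if_neg]
      omega
    · rw [av_const]; exact bet_nonneg _

lemma av_diff_eq (E T1 T2 : Finset α) (h1 : T1 ⊆ E) (h2 : T2 ⊆ E) (hd : Disjoint T1 T2) (N : ℕ)
    (c1 : T1.card = N) (c2 : T2.card = N) :
    av E (fun H => if (H ∩ T1).card = (H ∩ T2).card then (1:ℝ) else 0) = bet (2 * N) := by
  rw [← flip_av E T2 h2]
  have hU : (T1 ∪ T2).card = 2 * N := by
    rw [Finset.card_union_of_disjoint hd]; omega
  have := av_card_eq' E (T1 ∪ T2) (Finset.union_subset h1 h2) N
  rw [hU] at this
  unfold bet
  rw [show 2 * N / 2 = N by omega, ← this]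
  apply av_congr
  intro H _
  have e1 := flip_cond (H := H) hd
  have e2 := flip_cond1 (H := H) hd
  have e3 := card_inter_union (H := H) hd
  congr 1
  apply propext
  constructor
  · intro h; omega
  · intro h; omega

/-- resampling -/
lemma resamp (E T : Finset α) (f g : Finset α → ℝ) (c : ℝ)
    (hg0 : ∀ H, 0 ≤ g H) (hg : ∀ H H', g (res T H H') = g H)
    (hf : ∀ H, av E (fun H' => f (res T H H')) ≤ c) :
    av E (fun H => f H * g H) ≤ c * av E g := by
  rw [← av_res T E (fun H => f H * g H), ← av_mul_left]
  apply av_mono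
  intro H _
  have : av E (fun H' => f (res T H H') * g (res T H H'))
      = g H * av E (fun H' => f (res T H H')) := by
    rw [← av_mul_left]
    apply av_congr
    intro H' _
    rw [hg]; ring
  rw [this, mul_comm]
  exact mul_le_mul_of_nonneg_right (hf H) (hg0 H)

end gen

variable {n : ℕ}

/-- all `k`-sets -/
def EK (n k : ℕ) : Finset (Finset (Fin n)) := (Finset.univ : Finset (Fin n)).powersetCard k

/-- edges of size `k+1` containing `a` and avoiding `S` -/
def st (k : ℕ) (a : Fin n) (S : Finset (Fin n)) : Finset (Finset (Fin n)) :=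
  (EK n (k+1)).filter (fun e => a ∈ e ∧ Disjoint e S)

lemma st_sub (k : ℕ) (a : Fin n) (S : Finset (Fin n)) : st k a S ⊆ EK n (k+1) :=
  Finset.filter_subset _ _

lemma mem_st {k : ℕ} {a : Fin n} {S : Finset (Fin n)} {e : Finset (Fin n)} (he : e ∈ st k a S) :
    a ∈ e ∧ ∀ b ∈ S, b ∉ e := by
  unfold st at he
  rw [Finset.mem_filter] at he
  exact ⟨he.2.1, fun b hb hbe => Finset.disjoint_left.1 he.2.2 hbe hb⟩

lemma card_st (k : ℕ) (a : Fin n) (S : Finset (Fin n)) (ha : a ∉ S) :
    (st k a S).card = (n - (S.card + 1)).choose k := by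
  have h : st k a S = ((univ \ insert a S).powersetCard k).image (insert a) := by
    ext e
    simp only [st, EK, mem_filter, mem_powersetCard, mem_image, subset_univ, true_and]
    constructor
    · rintro ⟨hc, hae, hd⟩
      refine ⟨e.erase a, ⟨?_, ?_⟩, insert_erase hae⟩
      · intro x hx
        rw [mem_erase] at hx
        simp only [mem_sdiff, mem_univ, true_and, mem_insert, not_or]
        exact ⟨hx.1, fun h => (Finset.disjoint_left.1 hd) hx.2 h⟩
      · rw [card_erase_of_mem hae, hc]; rfl
    · rintro ⟨f, ⟨hf, hc⟩, rfl⟩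
      have haf : a ∉ f := fun h => by
        have := hf h; simp at this
      refine ⟨?_, mem_insert_self _ _, ?_⟩
      · rw [card_insert_of_notMem haf, hc]
      · rw [Finset.disjoint_left]
        intro x hx hxS
        rcases mem_insert.1 hx with rfl | h
        · exact ha hxS
        · have := hf h; simp at this; exact this.2 hxS
  rw [h, card_image_of_injOn, card_powersetCard]
  · congr 1
    rw [Finset.card_univ_diff, Fintype.card_fin, card_insert_of_notMem ha]
  · intro f hf g hg hfg
    simp only [Finset.mem_coe, mem_powersetCard] at hf hg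
    have haf : a ∉ f := fun h => by
      have := hf.1 h; simp at this
    have hag : a ∉ g := fun h => by
      have := hg.1 h; simp at this
    have := congrArg (fun s => s.erase a) hfg
    simpa [Finset.erase_insert haf, Finset.erase_insert hag] using this

lemma ind_comm (u v : Fin n) (H : Finset (Finset (Fin n))) : ind u v H = ind v u H := by
  unfold ind
  simp only [eq_comm]

lemma ind_sq (u v : Fin n) (H : Finset (Finset (Fin n))) : ind u v H * ind u v H = ind u v H := by
  unfold ind
  split_ifs <;> norm_num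

lemma deg_res2 {T1 T2 : Finset (Finset (Fin n))} {u : Fin n} (h1 : ∀ e ∈ T1, u ∈ e)
    (h2 : ∀ e ∈ T2, u ∉ e) (H H' : Finset (Finset (Fin n))) :
    deg u (res (T1 ∪ T2) H H') = deg u (H \ (T1 ∪ T2)) + (H' ∩ T1).card := by
  unfold deg res
  rw [Finset.filter_union, Finset.card_union_of_disjoint]
  · congr 2
    ext e
    simp only [Finset.mem_filter, Finset.mem_inter, Finset.mem_union]
    constructor
    · rintro ⟨⟨h, h' | h'⟩, hu⟩
      · exact ⟨h, h'⟩
      · exact absurd hu (h2 e h')
    · rintro ⟨h, h'⟩
      exact ⟨⟨h, Or.inl h'⟩, h1 e h'⟩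
  · apply Finset.disjoint_filter_filter
    rw [Finset.disjoint_left]
    intro e he he'
    exact (Finset.mem_sdiff.1 he).2 (Finset.mem_inter.1 he').2

lemma ind_res (E T1 T2 : Finset (Finset (Fin n))) (hT1 : T1 ⊆ E) (hT2 : T2 ⊆ E) (u v : Fin n)
    (hu : ∀ e ∈ T1, u ∈ e ∧ v ∉ e) (hv : ∀ e ∈ T2, v ∈ e ∧ u ∉ e)
    (H : Finset (Finset (Fin n))) :
    av E (fun H' => ind u v (res (T1 ∪ T2) H H')) ≤ bet (T1.card + T2.card) := by
  have hd : Disjoint T1 T2 := by
    rw [Finset.disjoint_left]
    intro e h1 h2
    exact (hu e h1).2 (hv e h2).1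
  refine le_trans (le_of_eq (av_congr ?_)) (av_diff E T1 T2 hT1 hT2 hd
    (deg u (H \ (T1 ∪ T2))) (deg v (H \ (T1 ∪ T2))))
  intro H' _
  unfold ind
  rw [deg_res2 (fun e he => (hu e he).1) (fun e he => (hv e he).2)]
  have : deg v (res (T1 ∪ T2) H H') = deg v (H \ (T1 ∪ T2)) + (H' ∩ T2).card := by
    have := deg_res2 (T1 := T2) (T2 := T1) (u := v) (fun e he => (hv e he).1)
      (fun e he => (hu e he).2) H H'
    rwa [Finset.union_comm T2 T1] at this
  rw [this]

lemma av_ind (k : ℕ) (u v : Fin n) (huv : u ≠ v) :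
    av (EK n (k+1)) (ind u v) = bet (2 * (n - 2).choose k) := by
  have c1 : (st k u {v}).card = (n-2).choose k := by
    rw [card_st k u {v} (by simpa using huv)]; simp
  have c2 : (st k v {u}).card = (n-2).choose k := by
    rw [card_st k v {u} (by simpa using huv.symm)]; simp
  have hd : Disjoint (st k u {v}) (st k v {u}) := by
    rw [Finset.disjoint_left]
    intro e h1 h2
    exact (mem_st h1).2 v (by simp) (mem_st h2).1
  rw [← av_diff_eq (EK n (k+1)) _ _ (st_sub k u {v}) (st_sub k v {u}) hd _ c1 c2]
  apply av_congr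
  intro H hH
  have key : ∀ (a b : Fin n), a ≠ b → deg a H = (H.filter (fun e => a ∈ e ∧ b ∈ e)).card +
      (H ∩ st k a {b}).card := by
    intro a b hab
    unfold deg
    rw [← Finset.card_union_of_disjoint]
    · congr 1
      ext e
      simp only [Finset.mem_filter, Finset.mem_union, Finset.mem_inter, st,
        Finset.disjoint_singleton_right]
      constructor
      · rintro ⟨h, ha⟩
        by_cases hb : b ∈ e
        · exact Or.inl ⟨h, ha, hb⟩
        · exact Or.inr ⟨h, hH h, ha, hb⟩
      · rintro (⟨h, ha, hb⟩ | ⟨h, _, ha, hb⟩)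
        · exact ⟨h, ha⟩
        · exact ⟨h, ha⟩
    · rw [Finset.disjoint_left]
      intro e h1 h2
      have h3 := (mem_st (Finset.mem_inter.1 h2).2).2 b (by simp)
      exact h3 (Finset.mem_filter.1 h1).2.2
  unfold ind
  rw [key u v huv, key v u huv.symm]
  have hc : (H.filter (fun e => u ∈ e ∧ v ∈ e)) = (H.filter (fun e => v ∈ e ∧ u ∈ e)) := by
    ext e; simp only [Finset.mem_filter]; tauto
  rw [hc]
  congr 1
  apply propext
  constructor
  · intro h; omega
  · intro h; omega

/-- three distinct vertices -/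
lemma av_three (k : ℕ) (a b c : Fin n) (hab : a ≠ b) (hac : a ≠ c) (hbc : b ≠ c) :
    av (EK n (k+1)) (fun H => ind a b H * ind b c H)
      ≤ bet ((n - 3).choose k) * bet (2 * (n - 2).choose k) := by
  rw [← av_ind k b c hbc]
  have hcd : (st k a {b, c}).card = (n-3).choose k := by
    rw [card_st k a {b, c} (by simp [hab, hac]), Finset.card_pair hbc]
  apply resamp (T := st k a {b, c})
  · intro H; exact ind_nonneg _ _ _
  · intro H H'
    unfold ind
    rw [deg_res_notMem (fun e he => (mem_st he).2 b (by simp)),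
      deg_res_notMem (fun e he => (mem_st he).2 c (by simp))]
  · intro H
    rw [← hcd]
    have := ac (EK n (k+1)) (st k a {b, c}) (st_sub _ _ _) a b (fun e he => (mem_st he).1)
      (fun e he => (mem_st he).2 b (by simp)) H
    refine le_trans (le_of_eq (av_congr ?_)) this
    intro H' _
    exact ind_comm _ _ _

/-- four distinct vertices -/
lemma av_four (k : ℕ) (a b c d : Fin n) (hab : a ≠ b) (hac : a ≠ c) (had : a ≠ d) (hbc : b ≠ c)
    (hbd : b ≠ d) (hcd : c ≠ d) :
    av (EK n (k+1)) (fun H => ind a b H * ind c d H)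
      ≤ bet (2 * (n - 4).choose k) * bet (2 * (n - 2).choose k) := by
  rw [← av_ind k c d hcd]
  have h1 : (st k a {b, c, d}).card = (n-4).choose k := by
    rw [card_st k a {b, c, d} (by simp [hab, hac, had])]
    congr 2
    rw [Finset.card_eq_three.2 ⟨b, c, d, hbc, hbd, hcd, rfl⟩]
  have h2 : (st k b {a, c, d}).card = (n-4).choose k := by
    rw [card_st k b {a, c, d} (by simp [hab.symm, hbc, hbd])]
    congr 2
    rw [Finset.card_eq_three.2 ⟨a, c, d, hac, had, hcd, rfl⟩]
  apply resamp (T := st k a {b, c, d} ∪ st k b {a, c, d})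
  · intro H; exact ind_nonneg _ _ _
  · intro H H'
    unfold ind
    rw [deg_res_notMem, deg_res_notMem]
    · intro e he
      rcases Finset.mem_union.1 he with he | he
      · exact (mem_st he).2 d (by simp)
      · exact (mem_st he).2 d (by simp)
    · intro e he
      rcases Finset.mem_union.1 he with he | he
      · exact (mem_st he).2 c (by simp)
      · exact (mem_st he).2 c (by simp)
  · intro H
    have := ind_res (EK n (k+1)) (st k a {b, c, d}) (st k b {a, c, d}) (st_sub _ _ _) (st_sub _ _ _)
      a b (fun e he => ⟨(mem_st he).1, (mem_st he).2 b (by simp)⟩)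
      (fun e he => ⟨(mem_st he).1, (mem_st he).2 a (by simp)⟩) H
    rw [h1, h2, ← two_mul] at this
    exact this

end Pool.Agent.TH687.HG
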