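import Mathlib
import Pool.Agent.TH687.HG.Basic

set_option autoImplicit false
set_option linter.unusedSectionVars false
open Finset

namespace Pool.Agent.TH687.HG
open Pool.Agent.TH641.Irr

variable {n : ℕ}

/-- number of ordered pairs of distinct vertices of equal degree -/
noncomputable def X (H : Finset (Finset (Fin n))) : ℝ :=
  ∑ p ∈ (univ : Finset (Fin n)).offDiag, ind p.1 p.2 H

/-- indicator function -/
noncomputable def bi (P : Prop) [Decidable P] : ℝ := if P then 1 else 0

/-- weight of a pair of pairs -/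
noncomputable def wt (β Q : ℝ) (p q : Fin n × Fin n) : ℝ :=
  (if q = p then 1 else 0) + (if q = (p.2, p.1) then 1 else 0) +
    β * ((if q.1 = p.1 then 1 else 0) + (if q.1 = p.2 then 1 else 0)
      + (if q.2 = p.1 then 1 else 0) + (if q.2 = p.2 then 1 else 0)) + Q

lemma ite_nn (P : Prop) [Decidable P] : (0:ℝ) ≤ (if P then (1:ℝ) else 0) := by
  split_ifs <;> norm_num

lemma wt_ge1 {β Q : ℝ} (hβ : 0 ≤ β) (hQ : 0 ≤ Q) (p : Fin n × Fin n) : 1 ≤ wt β Q p p := by
  unfold wt
  rw [if_pos rfl]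
  have h1 := ite_nn (p = (p.2, p.1))
  have h2 := ite_nn (p.1 = p.1)
  have h3 := ite_nn (p.1 = p.2)
  have h4 := ite_nn (p.2 = p.1)
  have h5 := ite_nn (p.2 = p.2)
  have := mul_nonneg hβ (add_nonneg (add_nonneg (add_nonneg h2 h3) h4) h5)
  linarith

lemma wt_ge1' {β Q : ℝ} (hβ : 0 ≤ β) (hQ : 0 ≤ Q) (p : Fin n × Fin n) :
    1 ≤ wt β Q p (p.2, p.1) := by
  unfold wt
  rw [if_pos (rfl : ((p.2, p.1) : Fin n × Fin n) = (p.2, p.1))]
  have h1 := ite_nn ((p.2, p.1) = p)
  have h2 := ite_nn (p.2 = p.1)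
  have h3 := ite_nn (p.2 = p.2)
  have h4 := ite_nn (p.1 = p.1)
  have h5 := ite_nn (p.1 = p.2)
  have := mul_nonneg hβ (add_nonneg (add_nonneg (add_nonneg h2 h3) h4) h5)
  simp only at *
  linarith

lemma wt_geβ {β Q : ℝ} (hβ : 0 ≤ β) (hQ : 0 ≤ Q) (p q : Fin n × Fin n)
    (h : q.1 = p.1 ∨ q.1 = p.2 ∨ q.2 = p.1 ∨ q.2 = p.2) : β ≤ wt β Q p q := by
  unfold wt
  have h0 := ite_nn (q = p)
  have h1 := ite_nn (q = (p.2, p.1))
  have h2 := ite_nn (q.1 = p.1)
  have h3 := ite_nn (q.1 = p.2)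
  have h4 := ite_nn (q.2 = p.1)
  have h5 := ite_nn (q.2 = p.2)
  have key : (1:ℝ) ≤ (if q.1 = p.1 then (1:ℝ) else 0) + (if q.1 = p.2 then (1:ℝ) else 0)
      + (if q.2 = p.1 then (1:ℝ) else 0) + (if q.2 = p.2 then (1:ℝ) else 0) := by
    rcases h with h | h | h | h
    · rw [if_pos h]; linarith
    · rw [if_pos h]; linarith
    · rw [if_pos h]; linarith
    · rw [if_pos h]; linarith
  nlinarith [mul_le_mul_of_nonneg_left key hβ]

lemma wt_geQ {β Q : ℝ} (hβ : 0 ≤ β) (hQ : 0 ≤ Q) (p q : Fin n × Fin n) : Q ≤ wt β Q p q := by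
  unfold wt
  have h0 := ite_nn (q = p)
  have h1 := ite_nn (q = (p.2, p.1))
  have h2 := ite_nn (q.1 = p.1)
  have h3 := ite_nn (q.1 = p.2)
  have h4 := ite_nn (q.2 = p.1)
  have h5 := ite_nn (q.2 = p.2)
  have := mul_nonneg hβ (add_nonneg (add_nonneg (add_nonneg h2 h3) h4) h5)
  linarith

lemma pair_bound (k : ℕ) (p q : Fin n × Fin n) (hp : p.1 ≠ p.2) (hq : q.1 ≠ q.2) :
    av (EK n (k+1)) (fun H => ind p.1 p.2 H * ind q.1 q.2 H)
      ≤ wt (bet ((n - 3).choose k)) (bet (2 * (n - 4).choose k)) p q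
        * bet (2 * (n - 2).choose k) := by
  have hβ := bet_nonneg ((n - 3).choose k)
  have hQ := bet_nonneg (2 * (n - 4).choose k)
  have hP := bet_nonneg (2 * (n - 2).choose k)
  obtain ⟨u, v⟩ := p
  obtain ⟨w, x⟩ := q
  simp only at hp hq ⊢
  have self : av (EK n (k+1)) (fun H => ind u v H * ind u v H) = bet (2 * (n - 2).choose k) := by
    rw [← av_ind k u v hp]
    exact av_congr (fun H _ => ind_sq u v H)
  by_cases h1 : w = u
  · subst h1
    by_cases h2 : x = v
    · subst h2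
      rw [self]
      have := wt_ge1 hβ hQ ((w, x) : Fin n × Fin n)
      nlinarith
    · have h3 := av_three k v w x (Ne.symm hp) (Ne.symm h2) hq
      refine le_trans ?_ (mul_le_mul_of_nonneg_right
        (wt_geβ hβ hQ ((w, v) : Fin n × Fin n) (w, x) (Or.inl rfl)) hP)
      refine le_trans (le_of_eq (av_congr ?_)) h3
      intro H _
      rw [ind_comm v w]
  · by_cases h2 : w = v
    · subst h2
      by_cases h3 : x = u
      · subst h3
        have h4 := wt_ge1' hβ hQ ((x, w) : Fin n × Fin n)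
        have h5 : av (EK n (k+1)) (fun H => ind x w H * ind w x H)
            = bet (2 * (n - 2).choose k) := by
          rw [← self]
          exact av_congr (fun H _ => by rw [ind_comm w x])
        rw [h5]
        simp only at h4
        nlinarith
      · have h4 := av_three k u w x hp (Ne.symm h3) hq
        refine le_trans h4 (mul_le_mul_of_nonneg_right
          (wt_geβ hβ hQ ((u, w) : Fin n × Fin n) (w, x) (Or.inr (Or.inl rfl))) hP)
    · by_cases h3 : x = u
      · subst h3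
        have h4 := av_three k v x w (Ne.symm hp) (Ne.symm h2) (Ne.symm h1)
        refine le_trans ?_ (mul_le_mul_of_nonneg_right
          (wt_geβ hβ hQ ((x, v) : Fin n × Fin n) (w, x) (Or.inr (Or.inr (Or.inl rfl)))) hP)
        refine le_trans (le_of_eq (av_congr ?_)) h4
        intro H _
        rw [ind_comm v x, ind_comm w x]
      · by_cases h4 : x = v
        · subst h4
          have h5 := av_three k u x w hp (Ne.symm h1) (Ne.symm h2)
          refine le_trans ?_ (mul_le_mul_of_nonneg_right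
            (wt_geβ hβ hQ ((u, x) : Fin n × Fin n) (w, x) (Or.inr (Or.inr (Or.inr rfl)))) hP)
          refine le_trans (le_of_eq (av_congr ?_)) h5
          intro H _
          rw [ind_comm w x]
        · have h5 := av_four k u v w x hp (Ne.symm h1) (Ne.symm h3) (Ne.symm h2) (Ne.symm h4) hq
          exact le_trans h5 (mul_le_mul_of_nonneg_right
            (wt_geQ hβ hQ ((u, v) : Fin n × Fin n) (w, x)) hP)

lemma sum_wt_le (β Q : ℝ) (hβ : 0 ≤ β) (p : Fin n × Fin n) :
    ∑ q ∈ (univ : Finset (Fin n)).offDiag, wt β Q p q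
      ≤ 2 + 4 * n * β + (n * (n - 1) : ℝ) * Q := by
  unfold wt
  rw [Finset.sum_add_distrib, Finset.sum_add_distrib, Finset.sum_add_distrib,
    ← Finset.mul_sum, Finset.sum_add_distrib, Finset.sum_add_distrib, Finset.sum_add_distrib]
  have a1 : ∀ r : Fin n × Fin n, ∑ q ∈ (univ : Finset (Fin n)).offDiag, (if q = r then (1:ℝ) else 0)
      ≤ 1 := by
    intro r
    rw [Finset.sum_ite_eq']
    split_ifs <;> norm_num
  have a2 : ∀ r : Fin n, ∑ q ∈ (univ : Finset (Fin n)).offDiag, (if q.1 = r then (1:ℝ) else 0)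
      ≤ n := by
    intro r
    refine le_trans (Finset.sum_le_sum_of_subset_of_nonneg (t := univ ×ˢ univ) ?_ ?_) ?_
    · intro q _; simp
    · intro q _ _; exact ite_nn _
    · rw [Finset.sum_product_right]
      simp
  have a3 : ∀ r : Fin n, ∑ q ∈ (univ : Finset (Fin n)).offDiag, (if q.2 = r then (1:ℝ) else 0)
      ≤ n := by
    intro r
    refine le_trans (Finset.sum_le_sum_of_subset_of_nonneg (t := univ ×ˢ univ) ?_ ?_) ?_
    · intro q _; simp
    · intro q _ _; exact ite_nn _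
    · rw [Finset.sum_product]
      simp
  have a4 : ∑ q ∈ (univ : Finset (Fin n)).offDiag, Q = (n * (n - 1) : ℝ) * Q := by
    rw [Finset.sum_const, Finset.offDiag_card, Finset.card_univ, Fintype.card_fin, nsmul_eq_mul]
    congr 1
    rw [Nat.cast_sub (Nat.le_mul_self n)]
    push_cast; ring
  have b1 := a1 p
  have b2 := a1 (p.2, p.1)
  have b3 := a2 p.1
  have b4 := a2 p.2
  have b5 := a3 p.1
  have b6 := a3 p.2
  have b7 : β * (∑ q ∈ (univ : Finset (Fin n)).offDiag, (if q.1 = p.1 then (1:ℝ) else 0)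
      + ∑ q ∈ (univ : Finset (Fin n)).offDiag, (if q.1 = p.2 then (1:ℝ) else 0)
      + ∑ q ∈ (univ : Finset (Fin n)).offDiag, (if q.2 = p.1 then (1:ℝ) else 0)
      + ∑ q ∈ (univ : Finset (Fin n)).offDiag, (if q.2 = p.2 then (1:ℝ) else 0)) ≤ β * (4 * n) :=
    mul_le_mul_of_nonneg_left (by linarith) hβ
  rw [a4]
  linarith

lemma card_offDiag' : (((univ : Finset (Fin n)).offDiag.card : ℕ) : ℝ) = n * (n - 1) := by
  rw [Finset.offDiag_card, Finset.card_univ, Fintype.card_fin, Nat.cast_sub (Nat.le_mul_self n)]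
  push_cast; ring

lemma av_X (k : ℕ) : av (EK n (k+1)) X = (n * (n - 1) : ℝ) * bet (2 * (n - 2).choose k) := by
  unfold X
  rw [av_sum]
  rw [Finset.sum_congr rfl (fun p hp => av_ind k p.1 p.2 (Finset.mem_offDiag.1 hp).2.2),
    Finset.sum_const, nsmul_eq_mul, card_offDiag']

lemma av_X2 (k : ℕ) (hn : 1 ≤ n) : av (EK n (k+1)) (fun H => X H * X H)
    ≤ (n * (n - 1) : ℝ) * bet (2 * (n - 2).choose k) *
      (2 + 4 * n * bet ((n - 3).choose k) + (n * (n - 1) : ℝ) * bet (2 * (n - 4).choose k)) := by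
  have h1 : av (EK n (k+1)) (fun H => X H * X H)
      = ∑ p ∈ (univ : Finset (Fin n)).offDiag, ∑ q ∈ (univ : Finset (Fin n)).offDiag,
        av (EK n (k+1)) (fun H => ind p.1 p.2 H * ind q.1 q.2 H) := by
    unfold X
    simp_rw [Finset.sum_mul_sum]
    rw [av_sum]
    apply Finset.sum_congr rfl
    intro p _
    rw [av_sum]
  rw [h1]
  have hP := bet_nonneg (2 * (n - 2).choose k)
  have h2 : ∀ p ∈ (univ : Finset (Fin n)).offDiag, ∑ q ∈ (univ : Finset (Fin n)).offDiag,
        av (EK n (k+1)) (fun H => ind p.1 p.2 H * ind q.1 q.2 H)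
      ≤ (2 + 4 * n * bet ((n - 3).choose k) + (n * (n - 1) : ℝ) * bet (2 * (n - 4).choose k))
        * bet (2 * (n - 2).choose k) := by
    intro p hp
    refine le_trans (Finset.sum_le_sum (fun q hq => pair_bound k p q
      (Finset.mem_offDiag.1 hp).2.2 (Finset.mem_offDiag.1 hq).2.2)) ?_
    rw [← Finset.sum_mul]
    exact mul_le_mul_of_nonneg_right (sum_wt_le _ _ (bet_nonneg _) p) hP
  refine le_trans (Finset.sum_le_sum h2) ?_
  rw [Finset.sum_const, nsmul_eq_mul, card_offDiag']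
  apply le_of_eq
  ring

open Classical in
/-- probability that no two vertices have the same degree -/
noncomputable def p0 (n k : ℕ) : ℝ :=
  av (EK n (k+1)) (fun H => if (∀ v w : Fin n, v ≠ w → deg v H ≠ deg w H) then (1:ℝ) else 0)

lemma cheb (k : ℕ) (hn : 2 ≤ n) :
    p0 n k ≤ (2 + 4 * n * bet ((n - 3).choose k) + (n * (n - 1) : ℝ) * bet (2 * (n - 4).choose k))
      / ((n * (n - 1) : ℝ) * bet (2 * (n - 2).choose k)) - 1 := by
  classical
  have hs : (0:ℝ) < (n * (n - 1) : ℝ) := by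
    have : (2:ℝ) ≤ n := by exact_mod_cast hn
    have h2 : (0:ℝ) < (n:ℝ) - 1 := by linarith
    positivity
  have hp : 0 < bet (2 * (n - 2).choose k) := by
    unfold bet
    have : 0 < (2 * (n-2).choose k).choose (2 * (n-2).choose k / 2) :=
      Nat.choose_pos (Nat.div_le_self _ _)
    positivity
  set P := bet (2 * (n - 2).choose k) with hPdef
  set s : ℝ := (n * (n - 1) : ℝ) with hsdef
  have hμ : 0 < s * P := by positivity
  have h1 : p0 n k * (s * P) ^ 2 ≤ av (EK n (k+1)) (fun H => X H * X H)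
      - 2 * (s * P) * av (EK n (k+1)) X + (s * P) ^ 2 := by
    have e1 : av (EK n (k+1)) (fun H => X H * X H)
      - 2 * (s * P) * av (EK n (k+1)) X + (s * P) ^ 2
      = av (EK n (k+1)) (fun H => X H * X H - 2 * (s * P) * X H + (s * P) ^ 2) := by
      rw [av_add, av_sub, av_mul_left, av_const]
    rw [e1]
    unfold p0
    rw [mul_comm, ← av_mul_left]
    apply av_mono
    intro H _
    by_cases h : ∀ v w : Fin n, v ≠ w → deg v H ≠ deg w H
    · rw [if_pos h]
      have hX : X H = 0 := by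
        unfold X
        apply Finset.sum_eq_zero
        intro p hp
        unfold ind
        rw [if_neg (h p.1 p.2 (Finset.mem_offDiag.1 hp).2.2)]
      rw [hX]
      apply le_of_eq
      ring
    · rw [if_neg h]
      nlinarith [sq_nonneg (X H - s * P)]
  have h2 := av_X2 (n := n) k (by omega)
  have h3 := av_X (n := n) k
  rw [← hPdef, ← hsdef] at h2 h3
  rw [h3] at h1
  rw [le_sub_iff_add_le, le_div_iff₀ hμ]
  set Z := (2 + 4 * n * bet ((n - 3).choose k) + s * bet (2 * (n - 4).choose k)) with hZ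
  have h4 : p0 n k * (s * P) ^ 2 ≤ s * P * Z - (s * P) ^ 2 := by
    nlinarith
  have h5 : (s * P) * ((p0 n k + 1) * (s * P)) ≤ (s * P) * Z := by nlinarith
  exact le_of_mul_le_mul_left h5 hμ

lemma p0_nonneg (k : ℕ) : 0 ≤ p0 n k := by
  unfold p0
  apply av_nonneg
  intro H _
  exact ite_nn _

end Pool.Agent.TH687.HG
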