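import Mathlib
import Pool.Agent.TH687.HG.Moment

set_option autoImplicit false
set_option linter.unusedSectionVars false
open Finset

namespace Pool.Agent.TH687.HG
open Pool.Agent.TH641.Irr

lemma bet_even (n : ℕ) : bet (2 * n) = (Nat.centralBinom n : ℝ) / 4 ^ n := by
  unfold bet
  rw [show 2 * n / 2 = n by omega, ← Nat.centralBinom_eq_two_mul_choose, pow_mul]
  norm_num

lemma bet_even_succ (n : ℕ) : bet (2 * (n + 1)) = (2 * n + 1 : ℝ) / (2 * (n + 1)) * bet (2 * n) := by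
  rw [bet_even, bet_even]
  have h := Nat.succ_mul_centralBinom_succ n
  have h2 : ((n:ℝ) + 1) * (Nat.centralBinom (n+1) : ℝ) = 2 * (2 * n + 1) * (Nat.centralBinom n : ℝ) := by
    exact_mod_cast h
  have h3 : (0:ℝ) < (n:ℝ) + 1 := by positivity
  have h4 : (Nat.centralBinom (n+1) : ℝ) = 2 * (2 * n + 1) * (Nat.centralBinom n : ℝ) / (n + 1) := by
    rw [eq_div_iff h3.ne', mul_comm]; exact h2
  rw [h4, pow_succ]
  field_simp
  ring

lemma bet_mono {K N : ℕ} (h : K ≤ N) : (K:ℝ) * bet (2 * K) ^ 2 ≤ N * bet (2 * N) ^ 2 := by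
  induction N, h using Nat.le_induction with
  | base => exact le_refl _
  | succ N _ ih =>
    refine ih.trans ?_
    rw [bet_even_succ]
    push_cast
    have hb := sq_nonneg (bet (2 * N))
    have e : ((N:ℝ) + 1) * ((2 * N + 1 : ℝ) / (2 * (N + 1)) * bet (2 * N)) ^ 2
        = (2 * N + 1 : ℝ) ^ 2 / (4 * (N + 1)) * bet (2 * N) ^ 2 := by
      have h3 : (0:ℝ) < (N:ℝ) + 1 := by positivity
      field_simp
      ring
    rw [e]
    apply mul_le_mul_of_nonneg_right _ hb
    rw [le_div_iff₀ (by positivity)]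
    nlinarith

lemma bet_two : bet (2 * 1) = 1 / 2 := by
  unfold bet
  norm_num [Nat.choose]

lemma bet_lower {N : ℕ} (h : 1 ≤ N) : 1 / 4 ≤ (N:ℝ) * bet (2 * N) ^ 2 := by
  have := bet_mono h
  rw [bet_two] at this
  norm_num at this
  linarith

lemma bet_pos (N : ℕ) : 0 < bet N := by
  unfold bet
  have : 0 < N.choose (N / 2) := Nat.choose_pos (Nat.div_le_self _ _)
  positivity

/-- `1/p ≤ 2 √N` -/
lemma bet_inv {N : ℕ} (h : 1 ≤ N) : 1 / bet (2 * N) ≤ 2 * Real.sqrt N := by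
  have h1 := bet_lower h
  have h2 := bet_pos (2 * N)
  rw [div_le_iff₀ h2]
  have h3 : (1:ℝ) ≤ (2 * Real.sqrt N * bet (2 * N)) ^ 2 := by
    have e : (2 * Real.sqrt N * bet (2 * N)) ^ 2 = 4 * (N * bet (2 * N) ^ 2) := by
      have : Real.sqrt N ^ 2 = N := Real.sq_sqrt (by positivity)
      calc (2 * Real.sqrt N * bet (2 * N)) ^ 2 = 4 * (Real.sqrt N ^ 2 * bet (2 * N) ^ 2) := by ring
        _ = _ := by rw [this]
    rw [e]; linarith
  have h4 : (0:ℝ) ≤ 2 * Real.sqrt N * bet (2 * N) := by positivity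
  nlinarith

lemma bet_le_sqrt (M : ℕ) : bet M ≤ 1 / Real.sqrt (M + 1) := by
  apply bet_le_of (by positivity)
  rw [Real.sq_sqrt (by positivity)]

lemma bet_ratio {K N : ℕ} (hK : 1 ≤ K) (h : K ≤ N) : bet (2 * K) / bet (2 * N) ≤ N / K := by
  have h1 := bet_mono h
  have h2 := bet_pos (2 * N)
  have h3 := bet_pos (2 * K)
  have hK' : (0:ℝ) < K := by exact_mod_cast hK
  have hN' : (K:ℝ) ≤ N := by exact_mod_cast h
  rw [div_le_div_iff₀ h2 hK']
  -- bet(2K) * K ≤ N * bet (2N)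
  have h4 : (bet (2 * K) * K) ^ 2 ≤ (N * bet (2 * N)) ^ 2 := by
    calc (bet (2 * K) * K) ^ 2 = K * (K * bet (2 * K) ^ 2) := by ring
      _ ≤ N * (N * bet (2 * N) ^ 2) := by
          apply mul_le_mul hN' h1 (by positivity) (by linarith)
      _ = (N * bet (2 * N)) ^ 2 := by ring
  have h5 : 0 ≤ N * bet (2 * N) := by
    have : (0:ℝ) ≤ N := by positivity
    positivity
  exact abs_le_of_sq_le_sq' h4 h5 |>.2

/-- the main bound in terms of the numbers `K ≤ M ≤ N` -/
lemma main_bound (n k : ℕ) (hn : 2 ≤ n) (hK : 1 ≤ (n - 4).choose k) :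
    p0 n k ≤ 4 * Real.sqrt ((n-2).choose k) / (n * (n-1))
      + 8 * (Real.sqrt ((n-2).choose k) / Real.sqrt ((n-3).choose k + 1)) / (n - 1)
      + (((n-2).choose k : ℝ) / ((n-4).choose k) - 1) := by
  have hc := cheb (n := n) k hn
  have hKN : (n - 4).choose k ≤ (n - 2).choose k := Nat.choose_le_choose k (by omega)
  have h1 := bet_inv (N := (n-2).choose k) (by omega)
  have h2 := bet_le_sqrt ((n-3).choose k)
  have h3 := bet_ratio hK hKN
  have hP := bet_pos (2 * (n-2).choose k)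
  have hβ := bet_nonneg ((n-3).choose k)
  set P := bet (2 * (n-2).choose k)
  set β := bet ((n-3).choose k)
  set Q := bet (2 * (n-4).choose k)
  have hn' : (2:ℝ) ≤ n := by exact_mod_cast hn
  have hn1 : (0:ℝ) < (n:ℝ) - 1 := by linarith
  have hn0 : (0:ℝ) < (n:ℝ) := by linarith
  refine hc.trans ?_
  have e : (2 + 4 * n * β + (n * (n - 1) : ℝ) * Q) / ((n * (n - 1) : ℝ) * P) - 1
      = 2 * (1 / P) / (n * (n-1)) + 4 * (β * (1 / P)) / (n - 1) + (Q / P - 1) := by
    field_simp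
    ring
  rw [e]
  have t1 : 2 * (1 / P) / (n * (n-1)) ≤ 4 * Real.sqrt ((n-2).choose k) / (n * (n-1)) := by
    apply div_le_div_of_nonneg_right _ (by positivity)
    linarith
  have hP1 : 0 ≤ 1 / P := by positivity
  have t2 : 4 * (β * (1 / P)) / (n - 1)
      ≤ 8 * (Real.sqrt ((n-2).choose k) / Real.sqrt ((n-3).choose k + 1)) / (n - 1) := by
    apply div_le_div_of_nonneg_right _ hn1.le
    have : β * (1 / P) ≤ 1 / Real.sqrt ((n-3).choose k + 1) * (2 * Real.sqrt ((n-2).choose k)) :=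
      mul_le_mul h2 h1 hP1 (by positivity)
    calc 4 * (β * (1 / P)) ≤ 4 * (1 / Real.sqrt ((n-3).choose k + 1) * (2 * Real.sqrt ((n-2).choose k))) := by
          linarith
      _ = _ := by ring
  linarith

end Pool.Agent.TH687.HG
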