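import Mathlib
import Pool.Agent.TH687.HG.Bet

set_option autoImplicit false
set_option linter.unusedSectionVars false
open Finset

namespace Pool.Agent.TH687.HG
open Pool.Agent.TH641.Irr

lemma c2 (m : ℕ) : ((m + 1).choose 2 : ℝ) = (m + 1) * m / 2 := by
  rw [Nat.cast_choose_two]
  push_cast; ring

lemma c3 (m : ℕ) : ((m + 2).choose 3 : ℝ) = (m + 2) * (m + 1) * m / 6 := by
  induction m with
  | zero => norm_num [Nat.choose]
  | succ m ih =>
    have : (m + 1 + 2).choose 3 = (m + 1 + 1).choose 2 + (m + 2).choose 3 := by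
      rw [show m + 1 + 2 = (m + 2) + 1 by ring, Nat.choose_succ_succ' (m+2) 2]
    rw [this]
    push_cast
    rw [ih]
    have h2 := c2 (m + 1)
    push_cast at h2
    rw [h2]
    ring

/-- the numerical facts -/
lemma nums (k n : ℕ) (hk : k = 2 ∨ k = 3) (hn : 16 ≤ n) :
    1 ≤ (n - 4).choose k ∧ ((n-2).choose k : ℝ) ≤ (n:ℝ) ^ 3 ∧
    ((n-2).choose k : ℝ) ≤ (1 + 14 / n) * ((n-4).choose k : ℝ) := by
  obtain ⟨m, rfl⟩ : ∃ m, n = m + 6 := ⟨n - 6, by omega⟩
  have hm : (10:ℝ) ≤ m := by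
    have : 10 ≤ m := by omega
    exact_mod_cast this
  have hm6 : (0:ℝ) < (m:ℝ) + 6 := by positivity
  refine ⟨Nat.choose_pos (by omega), ?_, ?_⟩
  · rcases hk with rfl | rfl
    · have h := c2 (m + 3)
      rw [show m + 6 - 2 = m + 3 + 1 by omega, h]
      push_cast
      nlinarith [mul_nonneg (by linarith : (0:ℝ) ≤ m) (by linarith : (0:ℝ) ≤ m),
        pow_nonneg (by linarith : (0:ℝ) ≤ m) 3]
    · have h := c3 (m + 2)
      rw [show m + 6 - 2 = m + 2 + 2 by omega, h]
      push_cast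
      nlinarith [mul_nonneg (by linarith : (0:ℝ) ≤ m) (by linarith : (0:ℝ) ≤ m),
        pow_nonneg (by linarith : (0:ℝ) ≤ m) 3]
  · rcases hk with rfl | rfl
    · have h := c2 (m + 3)
      have h' := c2 (m + 1)
      rw [show m + 6 - 2 = m + 3 + 1 by omega, show m + 6 - 4 = m + 1 + 1 by omega, h, h']
      push_cast
      have e : (1 + 14 / ((m:ℝ) + 6)) = (m + 20) / (m + 6) := by field_simp; ring
      rw [e, div_mul_eq_mul_div, le_div_iff₀ hm6]
      nlinarith [mul_nonneg (by linarith : (0:ℝ) ≤ m) (by linarith : (0:ℝ) ≤ m),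
        pow_nonneg (by linarith : (0:ℝ) ≤ m) 3]
    · have h := c3 (m + 2)
      have h' := c3 (m)
      rw [show m + 6 - 2 = m + 2 + 2 by omega, show m + 6 - 4 = m + 2 by omega, h, h']
      push_cast
      have e : (1 + 14 / ((m:ℝ) + 6)) = (m + 20) / (m + 6) := by field_simp; ring
      rw [e, div_mul_eq_mul_div, le_div_iff₀ hm6]
      have h1 : 0 ≤ (m:ℝ) := by linarith
      have key : ((m:ℝ) + 4) * (m + 3) * (m + 6) ≤ (m + 20) * ((m + 1) * m) := by
        nlinarith [mul_nonneg h1 h1, pow_nonneg h1 3]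
      nlinarith [mul_le_mul_of_nonneg_left key (by linarith : (0:ℝ) ≤ m + 2)]

lemma final_bound (k n : ℕ) (hk : k = 2 ∨ k = 3) (hn : 16 ≤ n) : p0 n k ≤ 54 / Real.sqrt n := by
  obtain ⟨h1, h2, h3⟩ := nums k n hk hn
  refine (main_bound n k (by omega) h1).trans ?_
  have hn' : (16:ℝ) ≤ n := by exact_mod_cast hn
  have hn0 : (0:ℝ) < n := by linarith
  have hn1 : (0:ℝ) < (n:ℝ) - 1 := by linarith
  have hK : (1:ℝ) ≤ ((n-4).choose k : ℝ) := by exact_mod_cast h1
  have hKM : ((n-4).choose k : ℝ) ≤ ((n-3).choose k : ℝ) := by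
    exact_mod_cast Nat.choose_le_choose k (by omega)
  set N : ℝ := ((n-2).choose k : ℝ) with hN
  set M : ℝ := ((n-3).choose k : ℝ) with hM
  set K : ℝ := ((n-4).choose k : ℝ) with hKdef
  have hs : (0:ℝ) < Real.sqrt n := Real.sqrt_pos.2 hn0
  have hs1 : (1:ℝ) ≤ Real.sqrt n := by
    rw [Real.one_le_sqrt]; linarith
  have hss : Real.sqrt n * Real.sqrt n = n := Real.mul_self_sqrt hn0.le
  -- first term
  have hsN : Real.sqrt N ≤ n * Real.sqrt n := by
    rw [Real.sqrt_le_left (by positivity)]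
    calc N ≤ (n:ℝ) ^ 3 := h2
      _ = (n * Real.sqrt n) ^ 2 := by
        rw [mul_pow, Real.sq_sqrt hn0.le]; ring
  have t1 : 4 * Real.sqrt N / (n * (n - 1)) ≤ 8 / Real.sqrt n := by
    rw [div_le_div_iff₀ (by positivity) hs]
    calc 4 * Real.sqrt N * Real.sqrt n ≤ 4 * (n * Real.sqrt n) * Real.sqrt n := by
          apply mul_le_mul_of_nonneg_right _ hs.le
          linarith
      _ = 4 * n * (Real.sqrt n * Real.sqrt n) := by ring
      _ = 4 * n * n := by rw [hss]
      _ ≤ 8 * (n * (n - 1)) := by nlinarith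
  -- second term
  have h14 : 14 / (n:ℝ) ≤ 1 := by rw [div_le_one hn0]; linarith
  have hNK : N ≤ 2 * K := by
    refine h3.trans ?_
    nlinarith
  have hq : Real.sqrt N / Real.sqrt (M + 1) ≤ 2 := by
    have hM1 : (0:ℝ) < M + 1 := by linarith
    rw [div_le_iff₀ (Real.sqrt_pos.2 hM1)]
    have : N ≤ 4 * (M + 1) := by linarith
    calc Real.sqrt N ≤ Real.sqrt (4 * (M + 1)) := Real.sqrt_le_sqrt this
      _ = 2 * Real.sqrt (M + 1) := by
        rw [Real.sqrt_mul (by norm_num), show (4:ℝ) = 2 ^ 2 by norm_num, Real.sqrt_sq (by norm_num)]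
  have t2 : 8 * (Real.sqrt N / Real.sqrt (M + 1)) / (n - 1) ≤ 32 / Real.sqrt n := by
    rw [div_le_div_iff₀ hn1 hs]
    have e1 : Real.sqrt n ≤ n := by nlinarith
    calc 8 * (Real.sqrt N / Real.sqrt (M + 1)) * Real.sqrt n ≤ 8 * 2 * n := by
          apply mul_le_mul (by linarith) e1 hs.le (by norm_num)
      _ ≤ 32 * (n - 1) := by linarith
  -- third term
  have t3 : N / K - 1 ≤ 14 / Real.sqrt n := by
    have e1 : N / K ≤ 1 + 14 / n := by
      rw [div_le_iff₀ (by linarith)]; exact h3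
    have e2 : 14 / (n:ℝ) ≤ 14 / Real.sqrt n := by
      apply div_le_div_of_nonneg_left (by norm_num) hs
      nlinarith
    linarith
  have e : (54:ℝ) / Real.sqrt n = 8 / Real.sqrt n + 32 / Real.sqrt n + 14 / Real.sqrt n := by
    ring
  rw [e]
  linarith

lemma tendsto_p0 (k : ℕ) (hk : k = 2 ∨ k = 3) :
    Filter.Tendsto (fun n : ℕ => p0 n k) Filter.atTop (nhds 0) := by
  have h1 : Filter.Tendsto (fun n : ℕ => 54 / Real.sqrt (n:ℝ)) Filter.atTop (nhds 0) := by
    apply Filter.Tendsto.const_div_atTop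
    exact Real.tendsto_sqrt_atTop.comp tendsto_natCast_atTop_atTop
  refine tendsto_of_tendsto_of_tendsto_of_le_of_le' tendsto_const_nhds h1 ?_ ?_
  · exact Filter.Eventually.of_forall (fun n => p0_nonneg k)
  · filter_upwards [Filter.eventually_ge_atTop 16] with n hn
    exact final_bound k n hk hn

end Pool.Agent.TH687.HG
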